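import Pool.Agent.helper90.IV.Spec

/-!
# MP_26dbae_co, row HLB: lower bound for the number of homomorphisms
-/

set_option autoImplicit false

open scoped BigOperators

namespace Pool.Agent.helper27.IV

open Pool.Agent.IV Pool.Agent.helper23.TH Pool.Agent.KS

noncomputable section

open Classical

/-- maps of the inner vertices satisfying the edge conditions for the vertices in `S` -/
def PS {I : Type} [Fintype I] (T : Tr I) {V : Type} [Fintype V] (A : V → V → Prop) (S : Finset I) :
    Finset (I → V) :=
  Finset.univ.filter fun x => ∀ i ∈ S, ∀ j, T.par i = some j → A (x i) (x j)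

theorem tree_lb {I : Type} [Fintype I] (T : Tr I) {V : Type} [Fintype V] (A : V → V → Prop) (d : ℝ)
    (hs : ∀ a b, A a b → A b a) (hd : 0 ≤ d) (hdeg : ∀ v, d ≤ deg A v) (S : Finset I) :
    (∀ i ∈ S, T.par i ≠ none) →
    d ^ S.card * (Fintype.card V : ℝ) ^ (Fintype.card I) ≤
      (Fintype.card V : ℝ) ^ S.card * (PS T A S).card := by
  refine Finset.induction_on_max_value T.rk S ?_ ?_
  · intro _
    have : PS T A (∅ : Finset I) = Finset.univ := by
      ext x; simp [PS]
    rw [this]
    simp
  · intro i S hiS hmax ih hpar
    have ih' := ih fun k hk => hpar k (Finset.mem_insert_of_mem hk)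
    obtain ⟨j, hj⟩ := Option.ne_none_iff_exists'.1 (hpar i (Finset.mem_insert_self i S))
    have hji : j ≠ i := by
      intro h
      have := T.lt i j hj
      rw [h] at this
      exact lt_irrefl _ this
    -- invariance of `PS S` under changes at `i`
    have hinv : ∀ (x : I → V) (v : V), x ∈ PS T A S → Function.update x i v ∈ PS T A S := by
      intro x v hx
      simp only [PS, Finset.mem_filter, Finset.mem_univ, true_and] at hx ⊢
      intro k hk l hl
      have hki : k ≠ i := fun h => hiS (h ▸ hk)
      have hli : l ≠ i := by
        intro h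
        have h1 := T.lt k l hl
        have h2 := hmax k hk
        rw [h] at h1
        omega
      rw [Function.update_of_ne hki, Function.update_of_ne hli]
      exact hx k hk l hl
    have hcard : ((PS T A S).sigma fun x => Finset.univ.filter fun w => A (x j) w).card ≤
        ((PS T A (insert i S)) ×ˢ (Finset.univ : Finset V)).card := by
      refine Finset.card_le_card_of_injOn (fun p => (Function.update p.1 i p.2, p.1 i)) ?_ ?_
      · rintro ⟨x, w⟩ hp
        simp only [Finset.coe_sigma, Set.mem_sigma_iff, Finset.mem_coe, Finset.mem_filter,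
          Finset.mem_univ, true_and] at hp
        simp only [Finset.coe_product, Set.mem_prod, Finset.mem_coe, Finset.mem_univ, and_true]
        have h1 := hinv x w hp.1
        simp only [PS, Finset.mem_filter, Finset.mem_univ, true_and] at h1 ⊢
        intro k hk l hl
        rcases Finset.mem_insert.1 hk with rfl | hk'
        · rw [hj] at hl
          have hl' : j = l := Option.some.inj hl
          subst hl'
          rw [Function.update_self, Function.update_of_ne hji]
          exact hs _ _ hp.2
        · exact h1 k hk' l hl
      · rintro ⟨x, w⟩ _ ⟨x', w'⟩ _ h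
        simp only [Prod.mk.injEq] at h
        have hw : w = w' := by
          have := congrFun h.1 i
          simpa using this
        subst hw
        have hx : x = x' := by
          funext k
          by_cases hk : k = i
          · subst hk; exact h.2
          · have := congrFun h.1 k
            rwa [Function.update_of_ne hk, Function.update_of_ne hk] at this
        subst hx
        rfl
    rw [Finset.card_sigma, Finset.card_product, Finset.card_univ] at hcard
    have hsum : d * ((PS T A S).card : ℝ) ≤
        ((PS T A (insert i S)).card : ℝ) * (Fintype.card V : ℝ) := by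
      calc d * ((PS T A S).card : ℝ) = ∑ x ∈ PS T A S, d := by
            rw [Finset.sum_const, nsmul_eq_mul, mul_comm]
        _ ≤ ∑ x ∈ PS T A S, ((Finset.univ.filter fun w => A (x j) w).card : ℝ) :=
            Finset.sum_le_sum fun x _ => hdeg (x j)
        _ ≤ _ := by exact_mod_cast hcard
    rw [Finset.card_insert_of_notMem hiS]
    have hn : (0 : ℝ) ≤ (Fintype.card V : ℝ) ^ S.card := by positivity
    calc d ^ (S.card + 1) * (Fintype.card V : ℝ) ^ Fintype.card I
        = d * (d ^ S.card * (Fintype.card V : ℝ) ^ Fintype.card I) := by ring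
      _ ≤ d * ((Fintype.card V : ℝ) ^ S.card * (PS T A S).card) := mul_le_mul_of_nonneg_left ih' hd
      _ = (Fintype.card V : ℝ) ^ S.card * (d * (PS T A S).card) := by ring
      _ ≤ (Fintype.card V : ℝ) ^ S.card * (((PS T A (insert i S)).card : ℝ) * (Fintype.card V : ℝ)) :=
          mul_le_mul_of_nonneg_left hsum hn
      _ = _ := by ring

theorem HLB : HLB_stmt := by
  intro I _ T V _ A d gh hs hd hdeg hgv
  rcases Nat.eq_zero_or_pos (Fintype.card V) with h0 | hpos
  · rw [h0]
    simp
  obtain ⟨o, ho, hroot⟩ := T.root
  -- all vertices except the root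
  set S : Finset I := Finset.univ.erase o with hS
  have hpar : ∀ i ∈ S, T.par i ≠ none := by
    intro i hi h
    exact (Finset.ne_of_mem_erase hi) (hroot i h)
  have hScard : S.card = Fintype.card I - 1 := by
    rw [hS, Finset.card_erase_of_mem (Finset.mem_univ o), Finset.card_univ]
  have hI : 1 ≤ Fintype.card I := Fintype.card_pos_iff.2 ⟨o⟩
  have h1 := tree_lb T A d hs hd hdeg S hpar
  have hV : (0 : ℝ) < Fintype.card V := by exact_mod_cast hpos
  have h2 : (Fintype.card V : ℝ) * d ^ (Fintype.card I - 1) ≤ (PS T A S).card := by
    rw [hScard] at h1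
    have h3 : (Fintype.card V : ℝ) ^ Fintype.card I =
        (Fintype.card V : ℝ) ^ (Fintype.card I - 1) * Fintype.card V := by
      rw [← pow_succ, Nat.sub_add_cancel hI]
    rw [h3] at h1
    have h4 : (0 : ℝ) < (Fintype.card V : ℝ) ^ (Fintype.card I - 1) := by positivity
    refine le_of_mul_le_mul_left ?_ h4
    calc (Fintype.card V : ℝ) ^ (Fintype.card I - 1) *
          ((Fintype.card V : ℝ) * d ^ (Fintype.card I - 1))
        = d ^ (Fintype.card I - 1) *
          ((Fintype.card V : ℝ) ^ (Fintype.card I - 1) * Fintype.card V) := by ring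
      _ ≤ _ := h1
  have hhom : ∀ x ∈ PS T A S, ∀ i j, T.par i = some j → A (x i) (x j) := by
    intro x hx i j hij
    simp only [PS, Finset.mem_filter, Finset.mem_univ, true_and] at hx
    refine hx i ?_ j hij
    rw [hS]
    refine Finset.mem_erase.2 ⟨?_, Finset.mem_univ i⟩
    intro h
    rw [h, ho] at hij
    exact absurd hij (by simp)
  -- possible values of the slots
  let t : (I → V) → T.R → Finset V := fun x r =>
    Finset.univ.filter fun v => A (x r.1) v ∧ ∀ w, gh r = some w → v = x w
  have ht : ∀ x ∈ PS T A S, d ^ nl T gh ≤ ((Fintype.piFinset (t x)).card : ℝ) := by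
    intro x hx
    rw [Fintype.card_piFinset]
    push_cast
    have hb : ∀ r : T.R, (if gh r = none then d else 1) ≤ ((t x r).card : ℝ) := by
      intro r
      split_ifs with hr
      · have : t x r = Finset.univ.filter fun v => A (x r.1) v := by
          ext v
          simp [t, hr]
        rw [this]
        exact hdeg (x r.1)
      · obtain ⟨w, hw⟩ := Option.ne_none_iff_exists'.1 hr
        have hmem : x w ∈ t x r := by
          simp only [t, Finset.mem_filter, Finset.mem_univ, true_and]
          refine ⟨?_, ?_⟩
          · rcases hgv r w hw with h | h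
            · exact hhom x hx _ _ h
            · exact hs _ _ (hhom x hx _ _ h)
          · intro w' hw'
            rw [hw] at hw'
            rw [Option.some.inj hw']
        have : 1 ≤ (t x r).card := Finset.card_pos.2 ⟨_, hmem⟩
        exact_mod_cast this
    have hprod : ∏ r : T.R, (if gh r = none then d else 1) = d ^ nl T gh := by
      rw [Finset.prod_ite, Finset.prod_const, Finset.prod_const_one, mul_one]
      rfl
    rw [← hprod]
    refine Finset.prod_le_prod ?_ fun r _ => hb r
    intro r _
    split_ifs
    · exact hd
    · exact zero_le_one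
  have hcard : ((PS T A S).sigma fun x => Fintype.piFinset (t x)).card ≤ (Hm T A gh).card := by
    refine Finset.card_le_card_of_injOn (fun p => (p.1, p.2)) ?_ ?_
    · rintro ⟨x, y⟩ hp
      simp only [Finset.coe_sigma, Set.mem_sigma_iff, Finset.mem_coe, Fintype.mem_piFinset] at hp
      simp only [Hm, Tr.hom, Finset.coe_filter, Finset.mem_univ, true_and, Set.mem_ofPred_eq]
      have hy : ∀ r, A (x r.1) (y r) ∧ ∀ w, gh r = some w → y r = x w := by
        intro r
        have := hp.2 r
        simpa only [t, Finset.mem_filter, Finset.mem_univ, true_and] using this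
      exact ⟨⟨hhom x hp.1, fun r => (hy r).1⟩, fun r w h => (hy r).2 w h⟩
    · rintro ⟨x, y⟩ _ ⟨x', y'⟩ _ h
      simp only [Prod.mk.injEq] at h
      obtain ⟨rfl, rfl⟩ := h
      rfl
  rw [Finset.card_sigma] at hcard
  calc (Fintype.card V : ℝ) * d ^ (Fintype.card I - 1 + nl T gh)
      = (Fintype.card V : ℝ) * d ^ (Fintype.card I - 1) * d ^ nl T gh := by
        rw [pow_add]; ring
    _ ≤ (PS T A S).card * d ^ nl T gh := mul_le_mul_of_nonneg_right h2 (pow_nonneg hd _)
    _ = ∑ x ∈ PS T A S, d ^ nl T gh := by rw [Finset.sum_const, nsmul_eq_mul]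
    _ ≤ ∑ x ∈ PS T A S, ((Fintype.piFinset (t x)).card : ℝ) := Finset.sum_le_sum ht
    _ ≤ _ := by exact_mod_cast hcard

end

end Pool.Agent.helper27.IV
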